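import Pool.Agent.H44.DV.Targets

/-! Module Z2 of the board dv_modules. -/

set_option autoImplicit false

namespace Pool.Agent.H86.DV

open Pool.Agent.H44.DU

variable {n : ℕ} (S : Surf n)

theorem z2_M : ∃ M : ℝ, 0 < M ∧ ∀ s : Side n, Real.exp (-M) ≤ S.a s := by
  refine ⟨1 + ∑ s : Side n, (S.a s)⁻¹, ?_, ?_⟩
  · have : 0 ≤ ∑ s : Side n, (S.a s)⁻¹ :=
      Finset.sum_nonneg fun s _ => inv_nonneg.2 (S.a_pos s).le
    linarith
  · intro s
    have h1 : (S.a s)⁻¹ ≤ ∑ s : Side n, (S.a s)⁻¹ :=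
      Finset.single_le_sum (f := fun s => (S.a s)⁻¹)
        (fun s _ => inv_nonneg.2 (S.a_pos s).le) (Finset.mem_univ s)
    have h2 := Real.add_one_le_exp (∑ s : Side n, (S.a s)⁻¹)
    have h3 : Real.exp (∑ s : Side n, (S.a s)⁻¹) ≤
        Real.exp (1 + ∑ s : Side n, (S.a s)⁻¹) := Real.exp_le_exp.2 (by linarith)
    have h4 : (S.a s)⁻¹ ≤ Real.exp (1 + ∑ s : Side n, (S.a s)⁻¹) := by linarith
    rw [Real.exp_neg]
    exact inv_le_of_inv_le₀ (S.a_pos s) h4

theorem z2_low {M : ℝ} (hM : ∀ s : Side n, Real.exp (-M) ≤ S.a s) (w : List (Side n)) :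
    Real.exp (-M * w.length) ≤ S.A w := by
  induction w with
  | nil => simp [Surf.A]
  | cons r w ih =>
    have e : -M * ((r :: w).length : ℝ) = -M + -M * w.length := by
      push_cast [List.length_cons]
      ring
    rw [e, Real.exp_add, Surf.A]
    exact mul_le_mul (hM r) ih (Real.exp_pos _).le (S.a_pos r).le

/-- long words with exponentially small scales of all prefixes -/
theorem z2_long (h1 : D_PL) (t ε : ℝ) (hε : 0 < ε)
    (hbad : ∀ C > (0 : ℝ), ∃ (w : List (Side n)) (x : ℝ), S.Run t w x ∧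
      S.A w < C⁻¹ * Real.exp (-ε * w.length)) (L : ℕ) :
    ∃ (v : List (Side n)) (x : ℝ), S.Run t v x ∧ L ≤ v.length ∧
      ∀ k ≤ v.length, S.A (v.take k) ≤ Real.exp (-(ε / 2) * k) := by
  obtain ⟨M, hM0, hM⟩ := z2_M S
  obtain ⟨N, hN⟩ := exists_nat_gt (2 * M * (L + 1) / ε)
  obtain ⟨w, x, hw, hA⟩ := hbad (Real.exp (M * N)) (Real.exp_pos _)
  set m := w.length with hm
  have hA1 : S.A w < Real.exp (-(M * N)) * Real.exp (-ε * m) := by
    rwa [Real.exp_neg]
  have hA2 : Real.exp (-(M * N)) * Real.exp (-ε * m) ≤ Real.exp (-ε * m) := by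
    have : Real.exp (-(M * N)) ≤ 1 := by
      rw [Real.exp_le_one_iff]
      have : 0 ≤ M * N := mul_nonneg hM0.le (Nat.cast_nonneg N)
      linarith
    have h5 := (Real.exp_pos (-ε * m)).le
    nlinarith
  have hA3 : S.A w < Real.exp (-(M * N)) := by
    have : Real.exp (-ε * m) ≤ 1 := by
      rw [Real.exp_le_one_iff]
      have : 0 ≤ ε * m := mul_nonneg hε.le (Nat.cast_nonneg m)
      linarith
    have h5 := (Real.exp_pos (-(M * N))).le
    nlinarith
  have hNm : (N : ℝ) < m := by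
    have h5 := (z2_low S hM w).trans_lt hA3
    rw [Real.exp_lt_exp] at h5
    have h6 : M * N < M * m := by linarith
    exact lt_of_mul_lt_mul_left h6 hM0.le
  have hAstep : ∀ k < m, Real.log (S.A (w.take k)) - M ≤ Real.log (S.A (w.take (k + 1))) := by
    intro k hk
    have e : w.take (k + 1) = w.take k ++ [w[k]'hk] := by
      rw [List.take_succ_eq_append_getElem hk]
    rw [e, S.A_append, Real.log_mul (S.A_pos _).ne' (S.A_pos _).ne']
    have h5 : -M ≤ Real.log (S.A [w[k]'hk]) := by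
      rw [Real.le_log_iff_exp_le (S.A_pos _)]
      simpa [Surf.A] using hM (w[k]'hk)
    linarith
  obtain ⟨j, hj, hj1, hj2⟩ := h1 ε M m (fun k => Real.log (S.A (w.take k))) hε hM0
    (by simp [Surf.A]) hAstep (by
      have : w.take m = w := by rw [hm, List.take_length]
      simp only [this]
      rw [Real.log_le_iff_le_exp (S.A_pos _)]
      exact (hA1.trans_le hA2).le)
  refine ⟨w.drop j, S.g t (w.take j) x, S.run_drop hw j, ?_, ?_⟩
  · rw [List.length_drop, ← hm]
    have h5 : ε * N > 2 * M * (L + 1) := by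
      rw [div_lt_iff₀ hε] at hN
      linarith
    have h6 : ε / 2 * N < ε / 2 * m := by
      apply mul_lt_mul_of_pos_left hNm
      linarith
    have h7 : M * (L + 1) < M * ((m : ℝ) - j) := by linarith
    have h8 : ((L : ℝ) + 1) < (m : ℝ) - j := lt_of_mul_lt_mul_left h7 hM0.le
    have h9 : (L : ℝ) + j < m := by linarith
    have h10 : L + j < m := by exact_mod_cast h9
    omega
  · intro k hk
    rw [List.length_drop, ← hm] at hk
    have h5 := hj1 (j + k) (Nat.le_add_right j k) (by omega)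
    beta_reduce at h5
    rw [List.take_add, S.A_append, Real.log_mul (S.A_pos _).ne' (S.A_pos _).ne'] at h5
    rw [← Real.log_le_iff_le_exp (S.A_pos _)]
    push_cast at h5
    have e : -(ε / 2) * (k : ℝ) = -(ε / 2) * ((j : ℝ) + k - j) := by ring
    rw [e]
    linarith

/-- the continuation is forced -/
theorem z2_run (h2 : D_SW) (t ε : ℝ) (m₀ : ℕ) (hm₀ : 1 ≤ m₀)
    (hN : ∀ (w : List (Side n)) (l : Side n), m₀ ≤ (w ++ [l]).length →
      S.A (w ++ [l]) ≤ Real.exp (-ε * (w ++ [l]).length) → ¬ S.Cut t w l)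
    (v : List (Side n)) (y : ℝ) (hv : S.Run t v y)
    (hA : ∀ k ≤ v.length, S.A (v.take k) ≤ Real.exp (-ε * k)) (x : ℝ)
    (hx : S.Run t (v.take m₀) x) : S.Run t v x := by
  have key : ∀ k, m₀ ≤ k → S.Run t (v.take k) x := by
    intro k hk
    induction k, hk using Nat.le_induction with
    | base => exact hx
    | succ k hk ih =>
      rcases Nat.lt_or_ge k v.length with h | h
      · obtain ⟨i, rfl⟩ : ∃ i, k = i + 1 := ⟨k - 1, by omega⟩
        have e1 : v.take (i + 1) = v.take i ++ [v[i]'(by omega)] := by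
          rw [List.take_succ_eq_append_getElem (by omega)]
        have e2 : v.take (i + 1 + 1) = v.take i ++ [v[i]'(by omega)] ++ [v[i + 1]'h] := by
          rw [List.take_succ_eq_append_getElem h, e1]
        have hl : (v.take i ++ [v[i]'(by omega)]).length = i + 1 := by
          rw [← e1, List.length_take]
          omega
        have hc := hN (v.take i) (v[i]'(by omega)) (by rw [hl]; exact hk) (by
          rw [hl, ← e1]
          exact hA (i + 1) (by omega))
        rw [e2]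
        apply h2 n S t _ _ _ hc
        · exact ⟨y, by rw [← e2]; exact S.run_take hv _⟩
        · rw [← e1]
          exact ih
      · rw [List.take_of_length_le (by omega)]
        rwa [List.take_of_length_le h] at ih
  have := key (max m₀ v.length) (le_max_left _ _)
  rwa [List.take_of_length_le (le_max_right _ _)] at this

theorem pf_Z2 (h1 : D_PL) (h2 : D_SW) (h3 : T_FD) (h4 : T_LH) : D_Z2 := by
  intro n S t hNBE hFr ε hε
  by_contra hcon
  push Not at hcon
  have hbad : ∀ C > (0 : ℝ), ∃ (w : List (Side n)) (x : ℝ), S.Run t w x ∧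
      S.A w < C⁻¹ * Real.exp (-ε * w.length) := by
    intro C hC
    obtain ⟨w, x, h, h'⟩ := hcon C hC
    exact ⟨w, x, h, h'⟩
  obtain ⟨m₀, hm₀⟩ := hNBE (ε / 2) (by linarith)
  set m₁ := m₀ + 1 with hm₁
  have hN : ∀ (w : List (Side n)) (l : Side n), m₁ ≤ (w ++ [l]).length →
      S.A (w ++ [l]) ≤ Real.exp (-(ε / 2) * (w ++ [l]).length) → ¬ S.Cut t w l := by
    intro w l hw hA
    exact hm₀ w l (by omega) hA
  have hlong : ∀ L : ℕ, ∃ v : List (Side n), (∃ x, S.Run t v x) ∧ L + m₁ ≤ v.length ∧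
      ∀ x, S.Run t (v.take m₁) x → S.Run t v x := by
    intro L
    obtain ⟨v, x, hv, hL, hA⟩ := z2_long S h1 t ε hε hbad (L + m₁)
    refine ⟨v, ⟨x, hv⟩, hL, fun y hy => ?_⟩
    exact z2_run S h2 t (ε / 2) m₁ (by omega) hN v x hv hA y hy
  choose v hv1 hv2 hv3 using hlong
  have hfin : Finite {u : List (Side n) // u.length = m₁} :=
    (List.finite_length_eq (Side n) m₁).to_subtype
  let f : ℕ → {u : List (Side n) // u.length = m₁} := fun L =>
    ⟨(v L).take m₁, by rw [List.length_take]; have := hv2 L; omega⟩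
  obtain ⟨⟨u, hu⟩, hJ⟩ := Finite.exists_infinite_fiber f
  have hJ' : (f ⁻¹' {⟨u, hu⟩}).Infinite := Set.infinite_coe_iff.1 hJ
  have hJu : ∀ L ∈ f ⁻¹' {⟨u, hu⟩}, (v L).take m₁ = u := by
    intro L hL
    exact congrArg Subtype.val hL
  obtain ⟨L₀, hL₀⟩ := hJ'.nonempty
  have hune : u ≠ [] := by
    intro h
    rw [h] at hu
    simp at hu
  obtain ⟨x₀, hx₀⟩ := hv1 L₀
  have hux₀ : S.Run t u x₀ := by
    rw [← hJu L₀ hL₀]
    exact S.run_take hx₀ m₁
  have hLH := h4 n S t u hune
  have hchn := ((hLH x₀).1 hux₀).1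
  have hlt : S.lo t u < S.hi t u := ((hLH x₀).1 hux₀).2.1.trans ((hLH x₀).1 hux₀).2.2
  have hrun : ∀ x, S.lo t u < x → x < S.hi t u → ∀ L ∈ f ⁻¹' {⟨u, hu⟩}, S.Run t (v L) x := by
    intro x hx1 hx2 L hL
    apply hv3
    rw [hJu L hL]
    exact (hLH x).2 ⟨hchn, hx1, hx2⟩
  have hhead : ∀ L ∈ f ⁻¹' {⟨u, hu⟩}, (v L).head? = u.head? := by
    intro L hL
    rw [← hJu L hL, List.head?_take, if_neg (by omega)]
  have hcomp : ∀ L ∈ f ⁻¹' {⟨u, hu⟩}, ∀ L' ∈ f ⁻¹' {⟨u, hu⟩}, ∀ i, i < (v L).length →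
      i < (v L').length → (v L)[i]? = (v L')[i]? := by
    intro L hL L' hL' i hi hi'
    have hx := ((hLH x₀).1 hux₀).2
    rcases h3 n S t x₀ (v L) (v L') (hrun x₀ hx.1 hx.2 L hL) (hrun x₀ hx.1 hx.2 L' hL') (by
      intro r hr r' hr'
      rw [hhead L hL] at hr
      rw [hhead L' hL'] at hr'
      rw [Option.mem_def] at hr hr'
      rw [hr] at hr'
      rw [Option.some.inj hr']) with ⟨s, hs⟩ | ⟨s, hs⟩
    · rw [← hs, List.getElem?_append_left hi]
    · rw [← hs, List.getElem?_append_left hi']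
  have hex : ∀ k : ℕ, ∃ L ∈ f ⁻¹' {⟨u, hu⟩}, k < (v L).length ∧ ∃ s, (v L)[k]? = some s := by
    intro k
    obtain ⟨L, hL, hkL⟩ := hJ'.exists_gt k
    have h5 : k < (v L).length := by
      have := hv2 L
      omega
    exact ⟨L, hL, h5, (v L)[k]'h5, List.getElem?_eq_getElem h5⟩
  choose Lk hLk1 hLk2 W hW using hex
  refine hFr W (S.lo t u) (S.hi t u) hlt ?_
  intro k x hx1 hx2
  have e : wd W k = (v (Lk k)).take k := by
    apply List.ext_getElem?
    intro i
    unfold wd
    rcases Nat.lt_or_ge i k with h | h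
    · rw [List.getElem?_take_of_lt h, List.getElem?_map, List.getElem?_range h, Option.map_some,
        ← hW i]
      exact hcomp _ (hLk1 i) _ (hLk1 k) i (hLk2 i) (h.trans (hLk2 k))
    · rw [List.getElem?_eq_none (by simpa using h), List.getElem?_eq_none (by
        rw [List.length_take]; omega)]
  rw [e]
  exact S.run_take (hrun x hx1 hx2 _ (hLk1 k)) k

end Pool.Agent.H86.DV
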